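import Mathlib

set_option autoImplicit false

namespace Pool.Agent.H.MP_f7bfdf_al
open FreeGroup hiding map_mul map_inv map_one
open Equiv

section hall
variable {ι Ω : Type} [MulAction (FreeGroup ι) Ω]

/-- `σ` agrees with the action inside `V` -/
def Compat (V : Set Ω) (σ : ι → Perm Ω) : Prop :=
  ∀ a x, x ∈ V → (of a : FreeGroup ι) • x ∈ V → σ a x = (of a : FreeGroup ι) • x

theorem Compat.mono {V W : Set Ω} {σ : ι → Perm Ω} (h : Compat W σ) (hV : V ⊆ W) : Compat V σ :=
  fun a x h1 h2 => h a x (hV h1) (hV h2)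

/-- `V` is connected to `p` -/
def Conn (ι : Type) [MulAction (FreeGroup ι) Ω] (p : Ω) (V : Set Ω) : Prop :=
  p ∈ V ∧ ∀ σ : ι → Perm Ω, Compat V σ → ∀ x ∈ V, ∃ g, lift σ g p = x

theorem path (g : FreeGroup ι) (v : Ω) : ∃ V : Set Ω, V.Finite ∧ Conn ι v V ∧
    ∀ σ : ι → Perm Ω, Compat V σ → lift σ g v = g • v := by
  induction g using FreeGroup.induction_on generalizing v with
  | C1 => exact ⟨{v}, Set.toFinite _, ⟨rfl, fun σ _ x hx => ⟨1, by simpa using hx.symm⟩⟩,
      fun σ _ => by simp⟩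
  | of a =>
    have key : ∀ σ : ι → Perm Ω, Compat {v, (of a : FreeGroup ι) • v} σ →
        lift σ (of a) v = (of a : FreeGroup ι) • v := fun σ h => by
      rw [lift_apply_of]
      exact h a v (by simp) (by simp)
    refine ⟨_, Set.toFinite _, ⟨by simp, fun σ h x hx => ?_⟩, key⟩
    rcases hx with rfl | rfl
    · exact ⟨1, by simp⟩
    · exact ⟨_, key σ h⟩
  | inv_of a _ =>
    have key : ∀ σ : ι → Perm Ω, Compat {v, (of a : FreeGroup ι)⁻¹ • v} σ →
        lift σ (of a)⁻¹ v = (of a : FreeGroup ι)⁻¹ • v := fun σ h => by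
      rw [map_inv, lift_apply_of, Perm.inv_eq_iff_eq, h a _ (by simp) (by simp), smul_inv_smul]
    refine ⟨_, Set.toFinite _, ⟨by simp, fun σ h x hx => ?_⟩, key⟩
    rcases hx with rfl | rfl
    · exact ⟨1, by simp⟩
    · exact ⟨_, key σ h⟩
  | mul g h ihg ihh =>
    obtain ⟨V, f1, c1, e1⟩ := ihh v
    obtain ⟨W, f2, c2, e2⟩ := ihg (h • v)
    refine ⟨V ∪ W, f1.union f2, ⟨Or.inl c1.1, fun σ hσ x hx => ?_⟩, fun σ hσ => ?_⟩
    · rcases hx with hx | hx
      · exact c1.2 σ (hσ.mono Set.subset_union_left) x hx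
      · obtain ⟨g', hg'⟩ := c2.2 σ (hσ.mono Set.subset_union_right) x hx
        exact ⟨g' * h, by rw [map_mul, Perm.mul_apply, e1 σ (hσ.mono Set.subset_union_left), hg']⟩
    · rw [map_mul, Perm.mul_apply, e1 σ (hσ.mono Set.subset_union_left),
        e2 σ (hσ.mono Set.subset_union_right), mul_smul]

theorem grow [MulAction.IsPretransitive (FreeGroup ι) Ω] [Infinite Ω] {p : Ω} {V : Set Ω}
    (hf : V.Finite) (h : Conn ι p V) : ∃ x, x ∉ V ∧ Conn ι p (insert x V) := by
  have : ∃ a, ∃ x ∈ V, (of a : FreeGroup ι) • x ∉ V := by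
    by_contra hc
    push Not at hc
    have : ∀ g : FreeGroup ι, ∀ x ∈ V, g • x ∈ V := fun g => by
      induction g using FreeGroup.induction_on with
      | C1 => simp
      | of a => exact hc a
      | inv_of a _ =>
        intro x hx
        obtain ⟨y, hy, rfl⟩ := ((Set.Finite.injOn_iff_bijOn_of_mapsTo hf (hc a)).1
          (MulAction.injective _).injOn).surjOn hx
        simpa using hy
      | mul g h ihg ihh => exact fun x hx => by rw [mul_smul]; exact ihg _ (ihh x hx)
    refine Set.infinite_univ (hf.subset fun x _ => ?_)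
    obtain ⟨g, rfl⟩ := MulAction.exists_smul_eq (FreeGroup ι) p x
    exact this g p h.1
  obtain ⟨a, x, hx, ha⟩ := this
  refine ⟨_, ha, Or.inr h.1, fun σ hσ y hy => ?_⟩
  have h2 := h.2 σ (hσ.mono (Set.subset_insert _ _))
  rcases hy with rfl | hy
  · obtain ⟨g, rfl⟩ := h2 x hx
    exact ⟨of a * g, by
      rw [map_mul, Perm.mul_apply, lift_apply_of, hσ a _ (Or.inr hx) (Or.inl rfl)]⟩
  · exact h2 y hy

theorem ext_perm {V : Set Ω} (hf : V.Finite) :
    ∃ σ : ι → Perm Ω, Compat V σ ∧ ∀ g, ∀ x ∈ V, lift σ g x ∈ V := by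
  classical
  have := hf.to_subtype
  have : ∀ a : ι, ∃ σ : Perm Ω, (∀ x, x ∈ V → (of a : FreeGroup ι) • x ∈ V →
      σ x = (of a : FreeGroup ι) • x) ∧ ∀ x, σ x ∈ V ↔ x ∈ V := fun a => by
    obtain ⟨τ, hτ⟩ := Perm.exists_extending_pair
      (fun x : {x : V // (of a : FreeGroup ι) • x.1 ∈ V} => x.1)
      (fun x => (⟨_, x.2⟩ : V)) Subtype.val_injective fun x y e =>
        Subtype.ext (Subtype.ext (MulAction.injective _ (congrArg Subtype.val e)))
    refine ⟨Perm.ofSubtype τ, fun x h1 h2 => ?_, fun x => Perm.ofSubtype_apply_mem_iff_mem τ x⟩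
    rw [Perm.ofSubtype_apply_of_mem τ h1]
    exact congrArg Subtype.val (hτ ⟨⟨x, h1⟩, h2⟩)
  choose σ h1 h2 using this
  refine ⟨σ, h1, fun g => ?_⟩
  induction g using FreeGroup.induction_on with
  | C1 => simp
  | of a => exact fun x hx => by rw [lift_apply_of]; exact (h2 a x).2 hx
  | inv_of a _ => exact fun x hx => by rw [map_inv, lift_apply_of, ← h2 a]; simpa using hx
  | mul g h ihg ihh => exact fun x hx => by rw [map_mul, Perm.mul_apply]; exact ihg _ (ihh x hx)

end hall

theorem index_stab {F Ω : Type} [Group F] (f : F →* Perm Ω) (p : Ω) :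
    ((MulAction.stabilizer (Perm Ω) p).comap f).index = (Set.range fun g => f g p).ncard := by
  letI := MulAction.compHom Ω f
  exact MulAction.index_stabilizer F p

theorem hall0 {ι : Type} (H : Subgroup (FreeGroup ι)) (hH : H.index = 0) (Z : Set (FreeGroup ι))
    (hZ : Z.Finite) : ∃ N0, ∀ N, N0 ≤ N → ∃ P : Subgroup (FreeGroup ι), P.index = N ∧
      ∀ z ∈ Z, (z ∈ P ↔ z ∈ H) := by
  have : Infinite (FreeGroup ι ⧸ H) := Subgroup.index_eq_zero_iff_infinite.1 hH
  let p : FreeGroup ι ⧸ H := (1 : FreeGroup ι)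
  choose W f1 c1 e1 using fun g : FreeGroup ι => path g p
  let V0 := ⋃ z ∈ insert 1 Z, W z
  have s0 : ∀ z ∈ insert 1 Z, W z ⊆ V0 := fun z hz => Set.subset_biUnion_of_mem (u := W) hz
  have f0 : V0.Finite := (hZ.insert 1).biUnion fun z _ => f1 z
  have : ∀ N, V0.ncard ≤ N → ∃ V, V.Finite ∧ V0 ⊆ V ∧ Conn ι p V ∧ V.ncard = N := fun N hN => by
    induction N, hN using Nat.le_induction with
    | base =>
      refine ⟨V0, f0, le_rfl, ⟨s0 1 (Or.inl rfl) (c1 1).1, fun σ hσ x hx => ?_⟩, rfl⟩
      obtain ⟨z, hz, hx⟩ := Set.mem_iUnion₂.1 hx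
      exact (c1 z).2 σ (hσ.mono (s0 z hz)) x hx
    | succ N _ ih =>
      obtain ⟨V, h1, h2, h3, h4⟩ := ih
      obtain ⟨x, hx, h5⟩ := grow h1 h3
      exact ⟨_, h1.insert x, h2.trans (Set.subset_insert _ _), h5, by
        rw [Set.ncard_insert_of_notMem hx h1, h4]⟩
  refine ⟨V0.ncard, fun N hN => ?_⟩
  obtain ⟨V, h1, h2, h3, h4⟩ := this N hN
  obtain ⟨σ, h5, h6⟩ := ext_perm (ι := ι) h1
  refine ⟨(MulAction.stabilizer _ p).comap (lift σ), ?_, fun z hz => ?_⟩
  · rw [index_stab, ← h4]
    congr 1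
    exact Set.Subset.antisymm (by rintro _ ⟨g, rfl⟩; exact h6 g p h3.1) (h3.2 σ h5)
  · show lift σ z p = p ↔ _
    rw [e1 z σ (h5.mono ((s0 z (Or.inr hz)).trans h2))]
    show ((z * 1 : FreeGroup ι) : FreeGroup ι ⧸ H) = (1 : FreeGroup ι) ↔ _
    rw [eq_comm, QuotientGroup.eq]
    simp

theorem hall {F : Type} [Group F] [IsFreeGroup F] (H : Subgroup F) (hH : H.index = 0) (Z : Set F)
    (hZ : Z.Finite) : ∃ N0, ∀ N, N0 ≤ N → ∃ P : Subgroup F, P.index = N ∧
      ∀ z ∈ Z, (z ∈ P ↔ z ∈ H) := by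
  let e := IsFreeGroup.mulEquiv F
  obtain ⟨N0, h⟩ := hall0 (H.comap e.toMonoidHom)
    (by rw [Subgroup.index_comap_of_surjective _ e.surjective, hH]) (e.symm '' Z) (hZ.image _)
  refine ⟨N0, fun N hN => ?_⟩
  obtain ⟨P, h1, h2⟩ := h N hN
  refine ⟨P.comap e.symm.toMonoidHom,
    by rw [Subgroup.index_comap_of_surjective _ e.symm.surjective, h1], fun z hz => ?_⟩
  simpa using h2 _ ⟨z, hz, rfl⟩

theorem bound0 {ι : Type} {a b : ι} (hab : a ≠ b) (S : Finset (FreeGroup ι))
    (hP : (Subgroup.closure (S : Set (FreeGroup ι))).index ≠ 0) :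
    (Subgroup.closure (S : Set (FreeGroup ι))).index ≤ S.card := by
  classical
  set P := Subgroup.closure (S : Set (FreeGroup ι)) with hPd
  let X := FreeGroup ι ⧸ P
  have : Finite X := Subgroup.index_ne_zero_iff_finite.1 hP
  let p : X := (1 : FreeGroup ι)
  let ct : (Bool × X → ZMod 2) → ι → X → ZMod 2 := fun c i x =>
    if i = a then c (true, x) else c (false, x)
  let τ : (Bool × X → ZMod 2) → ι → Perm (X × ZMod 2) := fun c i =>
    { toFun := fun z => ((of i : FreeGroup ι) • z.1, z.2 + ct c i z.1)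
      invFun := fun z => ((of i : FreeGroup ι)⁻¹ • z.1, z.2 - ct c i ((of i : FreeGroup ι)⁻¹ • z.1))
      left_inv := fun z => by simp
      right_inv := fun z => by simp }
  let D : (Bool × X → ZMod 2) → FreeGroup ι → X → ZMod 2 := fun c g x => (lift (τ c) g (x, 0)).2
  have hD : ∀ c g x t, lift (τ c) g (x, t) = (g • x, t + D c g x) := fun c g => by
    suffices ∀ x, ∃ d, ∀ t, lift (τ c) g (x, t) = (g • x, t + d) from fun x t => by
      obtain ⟨d, hd⟩ := this x
      simp only [D, hd, zero_add]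
    induction g using FreeGroup.induction_on with
    | C1 => exact fun x => ⟨0, by simp⟩
    | of i => exact fun x => ⟨_, fun t => by rw [lift_apply_of]; rfl⟩
    | inv_of i _ => exact fun x => ⟨-ct c i ((of i : FreeGroup ι)⁻¹ • x), fun t => by
        rw [map_inv, lift_apply_of]; exact Prod.ext rfl (sub_eq_add_neg t _)⟩
    | mul g h ihg ihh =>
      intro x
      obtain ⟨d, hd⟩ := ihh x
      obtain ⟨d', hd'⟩ := ihg (h • x)
      exact ⟨d + d', fun t => by rw [map_mul, Perm.mul_apply, hd, hd', mul_smul, add_assoc]⟩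
  have co : ∀ c g h x, D c (g * h) x = D c h x + D c g (h • x) := fun c g h x => by
    have := hD c (g * h) x 0
    rw [map_mul, Perm.mul_apply, hD, hD] at this
    simpa using (congrArg Prod.snd this).symm
  have hp : ∀ h ∈ P, h • p = p := fun h hh => by
    show ((h * 1 : FreeGroup ι) : X) = (1 : FreeGroup ι)
    rw [eq_comm, QuotientGroup.eq]
    simpa using hh
  have inj : Function.Injective fun c : Bool × X → ZMod 2 =>
      ((fun x : X => D c x.out p, fun s : S => D c s p) : (X → ZMod 2) × (S → ZMod 2)) := by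
    intro c c' e
    have e1 : ∀ x : X, D c x.out p = D c' x.out p := congrFun (congrArg Prod.fst e)
    have e2 : ∀ h ∈ P, D c h p = D c' h p := fun h hh => by
      induction hh using Subgroup.closure_induction with
      | mem s hs => exact congrFun (congrArg Prod.snd e) ⟨s, hs⟩
      | one => simp [D]
      | mul g h _ hh ihg ihh => rw [co, co, hp h hh, ihg, ihh]
      | inv g hg ih =>
        have h1 := co c g⁻¹ g p
        have h2 := co c' g⁻¹ g p
        rw [hp g hg, inv_mul_cancel] at h1 h2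
        have h3 : D c 1 p = D c' 1 p := by simp [D]
        rw [h1, h2, ih] at h3
        exact add_left_cancel h3
    have e3 : ∀ g, D c g p = D c' g p := fun g => by
      obtain ⟨h, hh⟩ := QuotientGroup.mk_out_eq_mul P g
      have : g = (g : X).out * (h : FreeGroup ι)⁻¹ := by rw [hh]; simp
      rw [this, co, co, hp _ (inv_mem h.2), e1, e2 _ (inv_mem h.2)]
    have e4 : ∀ i x, ct c i x = ct c' i x := fun i x => by
      obtain ⟨g, rfl⟩ := MulAction.exists_smul_eq (FreeGroup ι) p x
      have := e3 (of i * g)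
      rw [co, co, e3 g] at this
      simpa [D, τ] using this
    funext ⟨u, x⟩
    cases u
    · simpa [ct, hab.symm] using e4 b x
    · simpa [ct] using e4 a x
  have := Nat.card_le_card_of_injective _ inj
  simp only [Nat.card_prod, Nat.card_fun, Nat.card_zmod, Nat.card_eq_fintype_card (α := Bool),
    Fintype.card_bool, Nat.card_eq_card_toFinset, ← pow_add,
    Nat.pow_le_pow_iff_right Nat.one_lt_two] at this
  have h2 : Nat.card S = S.card := by simp
  show Nat.card X ≤ _
  omega

theorem bound {F : Type} [Group F] [IsFreeGroup F] {a b : F} (hab : a * b ≠ b * a) (S : Finset F)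
    (hP : (Subgroup.closure (S : Set F)).index ≠ 0) :
    (Subgroup.closure (S : Set F)).index ≤ S.card := by
  classical
  let e := IsFreeGroup.toFreeGroup F
  have : Nontrivial (IsFreeGroup.Generators F) := by
    by_contra hc
    rw [not_nontrivial_iff_subsingleton] at hc
    refine hab (e.injective ?_)
    rw [map_mul, map_mul]
    have : ∀ x y : FreeGroup (IsFreeGroup.Generators F), Commute x y := fun x y => by
      have h := fun z : FreeGroup (IsFreeGroup.Generators F) =>
        (closure_range_of _).ge (Subgroup.mem_top z)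
      refine Subgroup.closure_induction₂ (p := fun x y _ _ => Commute x y) ?_ ?_ ?_ ?_ ?_ ?_ ?_
        (h x) (h y)
      · rintro _ _ ⟨i, rfl⟩ ⟨j, rfl⟩
        rw [Subsingleton.elim i j]
      · exact fun _ _ => Commute.one_left _
      · exact fun _ _ => Commute.one_right _
      · exact fun _ _ _ _ _ _ => Commute.mul_left
      · exact fun _ _ _ _ _ _ => Commute.mul_right
      · exact fun _ _ _ _ => Commute.inv_left
      · exact fun _ _ _ _ => Commute.inv_right
    exact this _ _
  obtain ⟨i, j, hij⟩ := exists_pair_ne (IsFreeGroup.Generators F)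
  have h1 : (Subgroup.closure (↑(S.image e) : Set (FreeGroup (IsFreeGroup.Generators F)))).index =
      (Subgroup.closure (S : Set F)).index := by
    rw [Finset.coe_image, ← Subgroup.index_map_equiv _ e]
    exact congrArg _ (MonoidHom.map_closure e.toMonoidHom _).symm
  have := bound0 hij (S.image e) (h1 ▸ hP)
  rw [h1] at this
  exact this.trans Finset.card_image_le

end Pool.Agent.H.MP_f7bfdf_al
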