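import Mathlib
import Pool.Agent.H.MP_f7bfdf_al.A
import Pool.Agent.Lib.helper22.FreeSL
import Pool.Agent.Lib.helper13.Trans

set_option autoImplicit false

namespace Pool.Agent.H.MP_f7bfdf_al
open Subgroup Equiv Filter Cardinal

variable {G : Type} [Group G]

/-- generated by at most `r` elements -/
def Gen (r : ℕ) (K : Subgroup G) : Prop := ∃ S : Finset G, S.card ≤ r ∧ closure (S : Set G) = K

theorem emb (F : Type) [Group F] [IsFreeGroup F] [Countable F] :
    ∃ ρ : F →* Matrix (Fin 2) (Fin 2) ℚ, Function.Injective ρ := by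
  have : Countable (IsFreeGroup.Generators F) := (IsFreeGroup.basis F).injective.countable
  have : Nontrivial (IsFreeGroup.Generators F ⊕ Bool) := ⟨.inr true, .inr false, by simp⟩
  obtain ⟨ρ, hρ, -⟩ := Pool.Agent.Lib.NB.exists_free (IsFreeGroup.Generators F ⊕ Bool)
  refine ⟨((Int.castRingHom ℚ).mapMatrix.toMonoidHom.comp
    ((Units.coeHom _).comp Matrix.SpecialLinearGroup.toGL)).comp
    (ρ.comp ((FreeGroup.map Sum.inl).comp (IsFreeGroup.toFreeGroup F).toMonoidHom)), ?_⟩
  refine fun x y h => (hρ.comp ((FreeGroup.map_injective Sum.inl_injective).comp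
    (IsFreeGroup.toFreeGroup F).injective)) (Subtype.ext ?_)
  exact Matrix.map_injective (Int.cast_injective (α := ℚ)) h

theorem lin (hL : ∀ H : Subgroup G, H.FG → IsFreeGroup H) :
    ∃ (K : Type) (_ : Field K) (_ : CharZero K) (e : G → Matrix (Fin 2) (Fin 2) K),
      Function.Injective e ∧ e 1 = 1 ∧ ∀ x y, e (x * y) = e x * e y := by
  classical
  have : ∀ i : Finset G, ∃ ρ : closure (i : Set G) →* Matrix (Fin 2) (Fin 2) ℚ,
      Function.Injective ρ := fun i => by
    have := hL _ ⟨i, rfl⟩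
    have : Countable (closure (i : Set G)) := by
      rw [← Subtype.range_val (s := (i : Set G)), ← FreeGroup.range_lift_eq_closure]
      exact (MonoidHom.rangeRestrict_surjective _).countable
    exact emb _
  choose ρ hρ using this
  let U : Ultrafilter (Finset G) := Ultrafilter.of atTop
  have hU : ∀ x : G, ∀ᶠ i : Finset G in (U : Filter (Finset G)), x ∈ closure (i : Set G) := fun x =>
    (Ultrafilter.of_le atTop) ((eventually_ge_atTop ({x} : Finset G)).mono fun i hi =>
      Subgroup.subset_closure (hi (Finset.mem_singleton_self x)))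
  let M : G → Finset G → Matrix (Fin 2) (Fin 2) ℚ := fun x i =>
    if h : x ∈ closure (i : Set G) then ρ i ⟨x, h⟩ else 0
  have : CharZero (Germ (U : Filter (Finset G)) ℚ) :=
    (RingHom.charZero_iff (ϕ := (Germ.coeRingHom _).comp (Pi.constRingHom (Finset G) ℚ))
      (RingHom.injective _)).1 inferInstance
  refine ⟨Germ (U : Filter (Finset G)) ℚ, inferInstance, this,
    fun x a b => Germ.coeRingHom _ fun i => M x i a b, fun x y h => ?_, ?_, fun x y => ?_⟩
  · have h1 : ∀ᶠ i in (U : Filter (Finset G)), ∀ a b, M x i a b = M y i a b :=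
      eventually_all.2 fun a => eventually_all.2 fun b =>
        Germ.coe_eq.1 (congrFun (congrFun h a) b)
    obtain ⟨i, h1, h2, h3⟩ := (h1.and ((hU x).and (hU y))).exists
    have : M x i = M y i := Matrix.ext h1
    simp only [M, dif_pos h2, dif_pos h3] at this
    exact congrArg Subtype.val (hρ i this)
  · ext a b
    have : (fun i => M 1 i a b) = fun _ => (1 : Matrix (Fin 2) (Fin 2) ℚ) a b := funext fun i => by
      simp only [M, dif_pos (one_mem _)]
      exact congrFun (congrFun (map_one (ρ i)) a) b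
    show Germ.coeRingHom _ (fun i => M 1 i a b) = _
    rw [this, Matrix.one_apply, Matrix.one_apply]
    split_ifs
    · exact map_one _
    · exact map_zero _
  · ext a b
    show Germ.coeRingHom _ (fun i => M (x * y) i a b) = ∑ k,
      Germ.coeRingHom _ (fun i => M x i a k) * Germ.coeRingHom _ (fun i => M y i k b)
    simp only [← map_mul, ← map_sum]
    refine Germ.coe_eq.2 (((hU x).and (hU y)).mono fun i h => ?_)
    have : M (x * y) i = M x i * M y i := by
      simp only [M, dif_pos h.1, dif_pos h.2, dif_pos (mul_mem h.1 h.2), ← map_mul]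
      rfl
    simp only [this, Matrix.mul_apply, Finset.sum_apply, Pi.mul_apply]

theorem cnt (hL : ∀ H : Subgroup G, H.FG → IsFreeGroup H) (r : ℕ) (Y : Set G)
    (hY : ∀ Z : Finset G, ↑Z ⊆ Y → ∃ K : Subgroup G, Gen r K ∧ ↑Z ⊆ (K : Set G)) : Y.Countable := by
  classical
  obtain ⟨K, _, _, e, inj, e1, em⟩ := lin hL
  let en : G × Fin 2 × Fin 2 → K := fun z => e z.1 z.2.1 z.2.2
  let M := AlgebraicIndependent.matroid ℤ K
  obtain ⟨I, hI⟩ := M.exists_isBasis (en '' (Y ×ˢ Set.univ))
  have hf : I.Finite := by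
    by_contra hc
    obtain ⟨J, hJ, hc⟩ := Set.Infinite.exists_subset_card_eq hc (8 * r + 1)
    obtain ⟨J', h1, h2⟩ := Finset.subset_set_image_iff.1 (hJ.trans hI.subset)
    obtain ⟨_, ⟨S, hS, rfl⟩, h3⟩ := hY (J'.image Prod.fst) (by
      rw [Finset.coe_image]
      rintro _ ⟨z, hz, rfl⟩
      exact (h1 hz).1)
    let W := ((S ∪ S.image (·⁻¹)) ×ˢ (Finset.univ : Finset (Fin 2 × Fin 2))).image en
    have hW : W.card ≤ 8 * r := by
      refine Finset.card_image_le.trans ?_
      have := (Finset.card_union_le S (S.image (·⁻¹))).trans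
        (Nat.add_le_add_left Finset.card_image_le _)
      simp only [Finset.card_product, Finset.card_univ, Fintype.card_prod, Fintype.card_fin]
      omega
    have key : ∀ x ∈ closure (S : Set G), ∀ a b, e x a b ∈ Algebra.adjoin ℤ (W : Set K) := by
      intro x hx
      induction hx using closure_induction'' with
      | mem x hx => exact fun a b => Algebra.subset_adjoin (Finset.mem_image_of_mem en
          (a := (x, a, b)) (by simp [show x ∈ S from hx]))
      | inv_mem x hx => exact fun a b => Algebra.subset_adjoin (Finset.mem_image_of_mem en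
          (a := (x⁻¹, a, b)) (by simp [show x ∈ S from hx]))
      | one =>
        intro a b
        rw [e1, Matrix.one_apply]
        split_ifs
        exacts [one_mem _, zero_mem _]
      | mul x y _ _ ihx ihy =>
        intro a b
        rw [em, Matrix.mul_apply]
        exact sum_mem fun k _ => mul_mem (ihx _ _) (ihy _ _)
    have h4 : (J : Set K) ⊆ M.closure W := by
      rw [← h2, Finset.coe_image, AlgebraicIndependent.matroid_closure_eq]
      rintro _ ⟨z, hz, rfl⟩
      exact isAlgebraic_algebraMap (⟨_, key z.1 (h3 (Finset.mem_image_of_mem _ hz)) _ _⟩ :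
        Algebra.adjoin ℤ (W : Set K))
    have h5 := (hI.indep.subset hJ).encard_le_eRk_of_subset h4
    rw [M.eRk_closure_eq] at h5
    have h6 := h5.trans (M.eRk_le_encard _)
    rw [Set.encard_coe_eq_coe_finsetCard, Set.encard_coe_eq_coe_finsetCard, Nat.cast_le] at h6
    omega
  have : Countable (Algebra.adjoin ℤ I) := by
    rw [← mk_le_aleph0_iff]
    have := Algebra.lift_cardinalMk_adjoin_le ℤ I
    simp only [lift_id] at this
    exact this.trans (max_le (max_le mk_le_aleph0 hf.lt_aleph0.le) le_rfl)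
  have hc : (en '' (Y ×ˢ Set.univ)).Countable := (Algebraic.countable (Algebra.adjoin ℤ I) K).mono
    (AlgebraicIndependent.matroid_isBasis_iff.1 hI).2.2
  have := hc.to_subtype
  exact Function.Injective.countable (f := fun (y : Y) (a b : Fin 2) =>
    (⟨e y a b, (y, a, b), ⟨y.2, trivial⟩, rfl⟩ : en '' (Y ×ˢ Set.univ))) fun x y h =>
    Subtype.ext (inj (Matrix.ext fun a b => congrArg Subtype.val (congrFun (congrFun h a) b)))

theorem Gen.fg {r : ℕ} {K : Subgroup G} (h : Gen r K) : K.FG :=
  let ⟨S, _, h⟩ := h; ⟨S, h⟩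

theorem sep {F : Type} [Group F] [IsFreeGroup F] (H : Subgroup F) (Z : Set F) (hZ : Z.Finite) :
    ∃ P : Subgroup F, P.index ≠ 0 ∧ ∀ z ∈ Z, (z ∈ P ↔ z ∈ H) := by
  by_cases h : H.index = 0
  · obtain ⟨N, hN⟩ := hall H h Z hZ
    obtain ⟨P, h1, h2⟩ := hN (N + 1) (Nat.le_succ _)
    exact ⟨P, by omega, h2⟩
  · exact ⟨H, h, fun _ _ => Iff.rfl⟩

theorem drop (hL : ∀ H : Subgroup G, H.FG → IsFreeGroup H) {T : Set G} (hT : T.Finite) {s g y : G}
    (hs : s ∉ closure T) (hg : g ∉ closure T) {r : ℕ} {B : Subgroup G} (hB : Gen r B)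
    (hTB : T ⊆ B) (hsB : s ∈ B) (hgB : g ∈ B) (bad : s ∈ closure (T ∪ {y, y * s * y⁻¹ * g})) :
    Gen r (B ⊔ closure {y}) := by
  classical
  set L := B ⊔ closure {y} with hLd
  have := hL B hB.fg
  have := hL L (hB.fg.sup ⟨{y}, by simp⟩)
  have hBL : B ≤ L := le_sup_left
  have hy : y ∈ L := (le_sup_right : _ ≤ L) (Subgroup.subset_closure rfl)
  by_cases hc : ENat.card (IsFreeGroup.Generators L) ≤ r
  · have : Finite (IsFreeGroup.Generators L) :=
      ENat.card_lt_top.1 (hc.trans_lt (ENat.coe_lt_top r))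
    have := Fintype.ofFinite (IsFreeGroup.Generators L)
    refine ⟨Finset.univ.image fun i => (IsFreeGroup.of i : L), Finset.card_image_le.trans ?_, ?_⟩
    · simpa using hc
    · have h1 : closure (Set.range (IsFreeGroup.of : _ → L)) = ⊤ := by
        have := congrArg (Subgroup.map (IsFreeGroup.mulEquiv L).toMonoidHom)
          (FreeGroup.closure_range_of (IsFreeGroup.Generators L))
        rw [MonoidHom.map_closure, ← Set.range_comp, map_top_of_surjective _
          (IsFreeGroup.mulEquiv L).surjective] at this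
        exact this
      have := congrArg (Subgroup.map L.subtype) h1
      rw [MonoidHom.map_closure, ← Set.range_comp, ← MonoidHom.range_eq_map, range_subtype] at this
      rw [Finset.coe_image, Finset.coe_univ, Set.image_univ]
      exact this
  exfalso
  obtain ⟨j⟩ : Nonempty (Fin (r + 1) ↪ IsFreeGroup.Generators L) := by
    refine Cardinal.le_def _ _ |>.1 ?_
    rw [mk_fin]
    rw [ENat.card, Cardinal.toENat_le_natCast, not_le] at hc
    rw [Cardinal.nat_succ]
    exact Order.succ_le_of_lt hc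
  obtain ⟨P, h1, h2⟩ := sep ((closure T).subgroupOf B) (B.subtype ⁻¹' (insert s (insert g T)))
    (((hT.insert g).insert s).preimage B.subtype_injective.injOn)
  let X := B ⧸ P
  have : Finite X := index_ne_zero_iff_finite.1 h1
  let p : X := (1 : B)
  have hp : ∀ z : B, z • p = p ↔ z ∈ P := fun z => by
    show ((z * 1 : B) : X) = (1 : B) ↔ _
    rw [eq_comm, QuotientGroup.eq]
    simp
  obtain ⟨S, hS, hSB⟩ := hB
  have hSB' : ∀ z : S, z.1 ∈ B := fun z => hSB ▸ Subgroup.subset_closure z.2
  have i1 : Function.Injective fun (f : B →* Perm X) (z : S) => f ⟨z, hSB' z⟩ := fun f f' e => by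
    ext1 ⟨x, hx⟩
    subst hSB
    induction hx using closure_induction with
    | mem x hx => exact congrFun e ⟨x, hx⟩
    | one => exact (map_one f).trans (map_one f').symm
    | mul x y hx hy ihx ihy =>
      exact (map_mul f ⟨x, hx⟩ ⟨y, hy⟩).trans
        ((congrArg₂ (· * ·) ihx ihy).trans (map_mul f' ⟨x, hx⟩ ⟨y, hy⟩).symm)
    | inv x hx ih =>
      exact (map_inv f ⟨x, hx⟩).trans ((congrArg (·⁻¹) ih).trans (map_inv f' ⟨x, hx⟩).symm)
  have := Finite.of_injective _ i1
  have i2 : Function.Injective fun f : L →* Perm X =>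
      (f.comp (inclusion hBL), f ⟨y, hy⟩) := fun f f' e => by
    have e1 : f.comp (inclusion hBL) = f'.comp (inclusion hBL) := congrArg Prod.fst e
    have : L ≤ (f.eqLocus f').map L.subtype := sup_le
      (fun x hx => ⟨⟨x, hBL hx⟩, by
        have := DFunLike.congr_fun e1 ⟨x, hx⟩
        exact this, rfl⟩)
      ((closure_le _).2 (by rintro _ rfl; exact ⟨⟨_, hy⟩, congrArg Prod.snd e, rfl⟩))
    ext1 x
    obtain ⟨z, hz, e⟩ := this x.2
    exact (Subtype.ext e : z = x) ▸ hz
  have := Finite.of_injective _ i2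
  have c1 := Nat.card_le_card_of_injective _ i1
  have c2 := Nat.card_le_card_of_surjective (fun (f : L →* Perm X) (i : Fin (r + 1)) =>
    f (IsFreeGroup.of (j i))) fun u => ⟨IsFreeGroup.lift (Function.extend j u 1), funext fun i => by
      simp only [IsFreeGroup.lift_of, j.injective.extend_apply]⟩
  rw [Nat.card_fun] at c1 c2
  have c3 : Nat.card (Perm X) ^ Nat.card S ≤ Nat.card (Perm X) ^ r :=
    Nat.pow_le_pow_right Nat.card_pos (by simpa using hS)
  obtain ⟨f, hf⟩ := (i2.bijective_of_nat_card_le (by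
    rw [Nat.card_prod]
    refine le_trans ?_ c2
    rw [Nat.card_fin, pow_succ]
    exact Nat.mul_le_mul_right _ (c1.trans c3))).2
    (MulAction.toPermHom B X, swap ((⟨s, hsB⟩ : B)⁻¹ • p) ((⟨g, hgB⟩ : B) • p))
  have f1 : ∀ (z : G) (hz : z ∈ B) (x : X), f ⟨z, hBL hz⟩ x = (⟨z, hz⟩ : B) • x := fun z hz x =>
    congrArg (· x) (DFunLike.congr_fun (congrArg Prod.fst hf) ⟨z, hz⟩)
  have f2 : f ⟨y, hy⟩ = swap ((⟨s, hsB⟩ : B)⁻¹ • p) ((⟨g, hgB⟩ : B) • p) := congrArg Prod.snd hf
  have n1 : (⟨s, hsB⟩ : B) ∉ P := fun h => hs ((h2 _ (Or.inl rfl)).1 h)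
  have n2 : (⟨g, hgB⟩ : B) ∉ P := fun h => hg ((h2 _ (Or.inr (Or.inl rfl))).1 h)
  have f3 : f ⟨y, hy⟩ p = p := by
    rw [f2, swap_apply_of_ne_of_ne (fun h => n1 (inv_mem_iff.1 ((hp _).1 h.symm)))
      fun h => n2 ((hp _).1 h.symm)]
  have : closure (T ∪ {y, y * s * y⁻¹ * g}) ≤
      ((MulAction.stabilizer (Perm X) p).comap f).map L.subtype := (closure_le _).2 (by
    rintro z (hz | rfl | rfl)
    · exact ⟨⟨z, hBL (hTB hz)⟩, (f1 z (hTB hz) p).trans ((hp _).2
        ((h2 ⟨z, hTB hz⟩ (Or.inr (Or.inr hz))).2 (Subgroup.subset_closure hz))), rfl⟩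
    · exact ⟨⟨_, hy⟩, f3, rfl⟩
    · refine ⟨⟨y, hy⟩ * ⟨s, hBL hsB⟩ * ⟨y, hy⟩⁻¹ * ⟨g, hBL hgB⟩, ?_, rfl⟩
      show f _ p = p
      simp only [map_mul, map_inv, Perm.mul_apply]
      rw [f1 g hgB, f2, swap_inv, swap_apply_right, f1 s hsB, smul_inv_smul, ← f2, f3])
  obtain ⟨z, hz, e⟩ := this bad
  obtain rfl : z = ⟨s, hBL hsB⟩ := Subtype.ext e
  exact n1 ((hp _).1 ((f1 s hsB p).symm.trans hz))

theorem many (hL : ∀ H : Subgroup G, H.FG → IsFreeGroup H) (T : Finset G) {s g : G}
    (hs : s ∉ closure (T : Set G)) (hg : g ∉ closure (T : Set G)) (Z : Finset G)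
    (bad : ∀ y ∈ Z, s ∈ closure ((T : Set G) ∪ {y, y * s * y⁻¹ * g})) :
    Gen (T.card + 2) (closure (insert s (insert g (T : Set G))) ⊔ closure (Z : Set G)) := by
  classical
  induction Z using Finset.induction_on with
  | empty => exact ⟨insert s (insert g T), (Finset.card_insert_le _ _).trans
      (Nat.succ_le_succ (Finset.card_insert_le _ _)), by simp⟩
  | insert y Z _ ih =>
    have h : ∀ z ∈ insert s (insert g (T : Set G)), z ∈ closure (insert s (insert g (T : Set G))) ⊔
      closure (Z : Set G) := fun z hz => mem_sup_left (Subgroup.subset_closure hz)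
    rw [Finset.coe_insert, ← Set.union_singleton (s := (Z : Set G)), Subgroup.closure_union, ← sup_assoc]
    exact drop hL T.finite_toSet hs hg (ih fun y hy => bad y (Finset.mem_insert_of_mem hy))
      (fun z hz => h z (Or.inr (Or.inr hz))) (h s (Or.inl rfl)) (h g (Or.inr (Or.inl rfl)))
      (bad y (Finset.mem_insert_self _ _))

theorem fg_of (hL : ∀ H : Subgroup G, H.FG → IsFreeGroup H) {a b : G} (hab : a * b ≠ b * a)
    {r : ℕ} {B : Subgroup G} (h : ∀ Z : Finset G, Gen r (B ⊔ closure (Z : Set G))) :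
    (⊤ : Subgroup G).FG := by
  classical
  have hB : Gen r B := by simpa using h ∅
  have h' : ∀ K : Subgroup G, K.FG → B ≤ K → Gen r K := by
    rintro _ ⟨Z, rfl⟩ hK
    simpa only [sup_eq_right.2 hK] using h Z
  have bd : ∀ K : Subgroup G, K.FG → a ∈ K → b ∈ K → ∀ P : Subgroup K, B ≤ P.map K.subtype →
      P.index ≠ 0 → P.index ≤ r := fun K hK ha hb P hP h0 => by
    have := hL K hK
    have := (Group.fg_iff_subgroup_fg K).2 hK
    have : P.FiniteIndex := ⟨h0⟩
    obtain ⟨S, hS, e⟩ := h' _ (by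
      obtain ⟨U, hU⟩ := (Group.fg_iff_subgroup_fg P).1 inferInstance
      exact ⟨U.image K.subtype, by rw [Finset.coe_image, ← MonoidHom.map_closure, hU]⟩) hP
    have e' : closure (S.preimage K.subtype K.subtype_injective.injOn : Set K) = P := by
      apply Subgroup.map_injective K.subtype_injective
      rw [← e, MonoidHom.map_closure, Finset.coe_preimage, Set.image_preimage_eq_of_subset]
      intro z hz
      obtain ⟨w, -, hw⟩ : z ∈ P.map K.subtype := e ▸ Subgroup.subset_closure hz
      exact ⟨w, hw⟩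
    have := bound (a := (⟨a, ha⟩ : K)) (b := ⟨b, hb⟩) (fun h => hab (congrArg Subtype.val h)) _
      (e'.symm ▸ h0)
    rw [e'] at this
    exact this.trans ((Finset.card_le_card_of_injOn K.subtype (fun z hz => by simpa using hz)
      K.subtype_injective.injOn).trans hS)
  have fin : ∀ K : Subgroup G, K.FG → a ∈ K → b ∈ K → B ≤ K →
      (B.subgroupOf K).index ≠ 0 ∧ (B.subgroupOf K).index ≤ r := fun K hK ha hb hBK => by
    have h0 : (B.subgroupOf K).index ≠ 0 := fun h0 => by
      have := hL K hK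
      obtain ⟨S, -, e⟩ := hB
      obtain ⟨N, hN⟩ := hall _ h0 (K.subtype ⁻¹' S)
        (S.finite_toSet.preimage K.subtype_injective.injOn)
      obtain ⟨P, h1, h2⟩ := hN (N + r + 1) (by omega)
      have := bd K hK ha hb P (e ▸ (closure_le _).2 fun z hz => by
        have hz' : z ∈ B := e ▸ Subgroup.subset_closure hz
        exact ⟨⟨z, hBK hz'⟩, (h2 ⟨z, hBK hz'⟩ hz).2 hz', rfl⟩) (by omega)
      omega
    exact ⟨h0, bd K hK ha hb _ (by rw [subgroupOf_map_subtype]; exact le_inf le_rfl hBK) h0⟩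
  have : Finite (G ⧸ B) := by
    by_contra hc
    rw [not_finite_iff_infinite] at hc
    let u : Fin (r + 1) → G := fun i => (Infinite.natEmbedding (G ⧸ B) i).out
    let K := B ⊔ closure (↑(insert a (insert b (Finset.univ.image u))) : Set G)
    have m : ∀ z ∈ insert a (insert b (Finset.univ.image u)), z ∈ K := fun z hz =>
      mem_sup_right (Subgroup.subset_closure hz)
    obtain ⟨h0, h1⟩ := fin K (h _).fg (m a (by simp)) (m b (by simp)) le_sup_left
    have := index_ne_zero_iff_finite.1 h0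
    have := Nat.card_le_card_of_injective (fun i : Fin (r + 1) =>
      ((⟨u i, m _ (by simp)⟩ : K) : K ⧸ B.subgroupOf K)) fun i j e => by
        have : ((u i : G) : G ⧸ B) = (u j : G) := by
          have e' := QuotientGroup.eq.1 e
          exact QuotientGroup.eq.2 e'
        simp only [u, QuotientGroup.out_eq'] at this
        exact Fin.ext ((Infinite.natEmbedding _).injective this)
    rw [Nat.card_fin] at this
    exact absurd (this.trans h1) (by omega)
  have := Fintype.ofFinite (G ⧸ B)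
  have e : B ⊔ closure (↑(Finset.univ.image fun x : G ⧸ B => x.out) : Set G) = ⊤ := by
    refine top_unique fun x _ => ?_
    obtain ⟨z, hz⟩ := QuotientGroup.mk_out_eq_mul B x
    rw [show x = (x : G ⧸ B).out * (z : G)⁻¹ by rw [hz]; simp]
    exact mul_mem (mem_sup_right (Subgroup.subset_closure (by simp))) (mem_sup_left (inv_mem z.2))
  exact e ▸ (h _).fg

theorem fin_sub {T : Set G} {s : G} (h : s ∈ closure T) :
    ∃ U : Finset G, ↑U ⊆ T ∧ s ∈ closure (U : Set G) := by
  classical
  induction h using closure_induction with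
  | mem x hx => exact ⟨{x}, by simpa using hx, Subgroup.subset_closure (by simp)⟩
  | one => exact ⟨∅, by simp, one_mem _⟩
  | mul x y _ _ ihx ihy =>
    obtain ⟨U, h1, h2⟩ := ihx
    obtain ⟨V, h3, h4⟩ := ihy
    exact ⟨U ∪ V, by simp [h1, h3], mul_mem (Subgroup.closure_mono (by simp) h2)
      (Subgroup.closure_mono (by simp) h4)⟩
  | inv x _ ih => exact ih.imp fun U h => ⟨h.1, inv_mem h.2⟩

theorem step (hL : ∀ H : Subgroup G, H.FG → IsFreeGroup H) {a b : G} (hab : a * b ≠ b * a)
    (hG : ¬ (⊤ : Subgroup G).FG) {s g : G} {T : Set G} (hs : s ∉ closure T) (hg : g ∉ closure T)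
    (hT : #T < #G) : ∃ y, s ∉ closure (T ∪ {y, y * s * y⁻¹ * g}) := by
  classical
  by_contra hc
  push Not at hc
  by_cases hf : T.Finite
  · lift T to Finset G using hf
    exact hG (fg_of hL hab fun Z => many hL T hs hg Z fun y _ => hc y)
  have : ∀ y, ∃ T0 : Finset T, s ∈ closure ((T0.map (Function.Embedding.subtype _) : Set G) ∪
      {y, y * s * y⁻¹ * g}) := fun y => by
    obtain ⟨U, h1, h2⟩ := fin_sub (hc y)
    refine ⟨U.subtype _, Subgroup.closure_mono (fun z hz => ?_) h2⟩
    rcases h1 hz with h | h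
    · exact Or.inl (by simpa [h] using hz)
    · exact Or.inr h
  choose φ hφ using this
  have hc : ∀ T0, (φ ⁻¹' {T0}).Countable := fun T0 => by
    have h1 : closure (T0.map (Function.Embedding.subtype _) : Set G) ≤ closure T :=
      Subgroup.closure_mono fun z hz => by
        obtain ⟨w, -, rfl⟩ := Finset.mem_map.1 hz
        exact w.2
    exact cnt hL _ _ fun Z hZ => ⟨_, many hL (T0.map (Function.Embedding.subtype _))
      (fun h => hs (h1 h)) (fun h => hg (h1 h)) Z fun y hy => (show φ y = T0 from hZ hy) ▸ hφ y,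
      fun z hz => mem_sup_right (Subgroup.subset_closure hz)⟩
  have : Infinite T := Set.infinite_coe_iff.2 hf
  refine hT.not_ge ?_
  calc #G = sum fun T0 => #(φ ⁻¹' {T0}) := by
        rw [← mk_sigma]
        exact (mk_congr (Equiv.sigmaFiberEquiv φ)).symm
    _ ≤ sum fun _ : Finset T => ℵ₀ := sum_le_sum _ _ fun T0 => (hc T0).le_aleph0
    _ = #T := by rw [sum_const', mk_finset_of_infinite, mul_aleph0_eq (aleph0_le_mk _)]

theorem main (hL : ∀ H : Subgroup G, H.FG → IsFreeGroup H) {a b : G} (hab : a * b ≠ b * a)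
    {s : G} (hs : s ≠ 1) : ∃ M : Subgroup G, IsCoatom M ∧ s ∉ M := by
  classical
  have : Infinite G := by
    by_contra hc
    rw [not_infinite_iff_finite] at hc
    have := hL ⊤ (Group.fg_def.1 inferInstance)
    have := IsFreeGroup.ofMulEquiv (topEquiv (G := G))
    have := bound hab ∅ (index_ne_zero_of_finite)
    exact index_ne_zero_of_finite (Nat.le_zero.1 this)
  by_cases hG : (⊤ : Subgroup G).FG
  · have := hL ⊤ hG
    have := IsFreeGroup.ofMulEquiv (topEquiv (G := G))
    obtain ⟨N, hN⟩ := hall (⊥ : Subgroup G) (by simp) {s} (Set.toFinite _)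
    obtain ⟨q, h1, h2⟩ := Nat.exists_infinite_primes N
    obtain ⟨P, h3, h4⟩ := hN q h1
    refine ⟨P, ⟨fun h => h2.ne_one (by rw [← h3, h, index_top]), fun K hK => ?_⟩,
      fun h => hs ((h4 s rfl).1 h)⟩
    have h5 := relIndex_mul_index hK.le
    rw [h3] at h5
    rcases (Nat.dvd_prime h2).1 (Dvd.intro_left _ h5) with h | h
    · exact index_eq_one.1 h
    · rw [h] at h5
      exact absurd (relIndex_eq_one.1 (Nat.eq_of_mul_eq_mul_right h2.pos (h5.trans
        (one_mul _).symm))) hK.not_ge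
  have dir : ∀ (J : Type) (f : J → Subgroup G), Directed (· ≤ ·) f → (∀ j, s ∉ f j) →
      s ∉ ⨆ j, f j := fun J f hf h => by
    cases isEmpty_or_nonempty J
    · rw [iSup_of_empty]
      exact hs
    · rw [mem_iSup_of_directed hf]
      exact fun ⟨j, hj⟩ => h j hj
  obtain ⟨T, h1, h2⟩ := Pool.Agent.Lib.helper13.Trans.recur (ι := G) (S := Set G) id
    (fun _ _ => le_rfl) (fun T => s ∉ closure T) (fun J f hf h => by
      rw [show (⨆ j, f j) = ⋃ j, f j from rfl, Subgroup.closure_iUnion]
      refine dir J _ (fun i j => ?_) h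
      obtain ⟨k, h1, h2⟩ := hf i j
      exact ⟨k, Subgroup.closure_mono h1, Subgroup.closure_mono h2⟩)
    (fun g T => g ∈ closure (insert s T)) fun T g hs hT => by
      by_cases hg : g ∈ closure T
      · exact ⟨T, le_rfl, by simp, hs, Subgroup.closure_mono (Set.subset_insert _ _) hg⟩
      obtain ⟨y, hy⟩ := step hL hab hG hs hg hT
      refine ⟨_, Set.subset_union_left, (Set.toFinite {y, y * s * y⁻¹ * g}).subset
        fun z hz => hz.1.resolve_left hz.2, hy, ?_⟩
      have m : ∀ z ∈ insert s (T ∪ {y, y * s * y⁻¹ * g}),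
        z ∈ closure (insert s (T ∪ {y, y * s * y⁻¹ * g})) := fun z hz => Subgroup.subset_closure hz
      have := mul_mem (inv_mem (mul_mem (mul_mem (m y (by simp)) (m s (by simp)))
        (inv_mem (m y (by simp))))) (m (y * s * y⁻¹ * g) (by simp))
      rwa [inv_mul_cancel_left] at this
  obtain ⟨M, h3, h4⟩ := zorn_le_nonempty₀ {M : Subgroup G | s ∉ M} (fun c hc hch K hK =>
    ⟨⨆ j : c, j.1, dir c _ hch.directed fun j => hc j.2, fun z hz => le_iSup (fun j : c => j.1) ⟨z, hz⟩⟩)
    _ h1
  refine ⟨M, ⟨fun h => h4.1 (h ▸ mem_top s), fun K hK => top_unique fun g _ => ?_⟩, h4.1⟩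
  obtain ⟨τ, h5, h6⟩ := h2 g
  refine (closure_le K).2 (Set.insert_subset ?_ fun z hz =>
    hK.le (h3 (Subgroup.subset_closure (h5 hz)))) h6
  by_contra hc
  exact hK.not_ge (h4.2 hc hK.le)

end Pool.Agent.H.MP_f7bfdf_al
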